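import Pool.Agent.Helper77.OF4.St

/-! Module CO of project OF4 (MP_7a9ddc_co). -/

set_option autoImplicit false

namespace Pool.Agent.Helper2.OF4.CO

open Equiv Equiv.Perm Pool.Agent.Helper35.PM Pool.Agent.Helper77.HY Pool.Agent.Helper77.OF4

theorem main (hLc : StLc) : StCo := by
  classical
  intro V _ G W p hW hp hS L A hL
  have hfin := Fintype.ofFinite V
  obtain ⟨R, hR⟩ : ∃ R : Finset V, ∀ v, v ∈ R ↔ v ∉ W :=
    ⟨Finset.univ.filter (fun v => v ∉ W), fun v => by
      rw [Finset.mem_filter]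
      exact ⟨fun h => h.2, fun h => ⟨Finset.mem_univ _, h⟩⟩⟩
  obtain ⟨w, hw⟩ : ∃ w : V → ℕ, ∀ v, w v = if ∃ a ∈ W, G.Adj v a then 1 else 0 :=
    ⟨_, fun v => rfl⟩
  obtain ⟨L', hL'⟩ : ∃ L' : V → Finset ℕ, ∀ v, L' v = if ∃ a ∈ W, G.Adj v a then L v \ A else L v :=
    ⟨_, fun v => rfl⟩
  obtain ⟨c, hc1, hc2⟩ := hLc V G R p w
    (fun u hu v hv huv => hp u v ((hR u).1 hu) ((hR v).1 hv) huv)
    (fun U hU => by
      have h1 := hS U fun v hv => (hR v).1 (hU hv)
      have h2 : ∑ v ∈ U, w v = {v : V | v ∈ U ∧ ∃ a ∈ W, G.Adj v a}.ncard := by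
        have h3 : {v : V | v ∈ U ∧ ∃ a ∈ W, G.Adj v a} =
            (U.filter (fun v => ∃ a ∈ W, G.Adj v a) : Finset V) := by
          ext v
          rw [Finset.coe_filter]
        rw [h3, Set.ncard_coe_finset, Finset.card_filter]
        exact Finset.sum_congr rfl fun v _ => hw v
      rw [h2]
      exact h1) L'
    (fun v _ => by
      have h1 := hL v
      rw [hw, hL']
      split_ifs
      · omega
      · have h2 := Finset.card_inter_add_card_sdiff (L v) A
        omega)
  have ha : ∀ v, ∃ a, a ∈ L v ∧ a ∈ A := by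
    intro v
    obtain ⟨a, ha⟩ := Finset.card_pos.1 (by rw [(hL v).1]; exact one_pos : 0 < (L v ∩ A).card)
    exact ⟨a, Finset.mem_inter.1 ha⟩
  choose a ha1 ha2 using ha
  have hsub : ∀ v, L' v ⊆ L v := by
    intro v
    rw [hL']
    split_ifs
    · exact Finset.sdiff_subset
    · exact Finset.Subset.refl _
  have hnot : ∀ u v, u ∈ W → v ∉ W → G.Adj v u → a u ≠ c v := by
    intro u v hu hv huv h
    have h1 := hc1 v ((hR v).2 hv)
    rw [hL', if_pos ⟨u, hu, huv⟩, Finset.mem_sdiff, ← h] at h1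
    exact h1.2 (ha2 u)
  refine ⟨fun v => if v ∈ W then a v else c v, fun v => ?_, fun u v huv => ?_⟩
  · change (if v ∈ W then a v else c v) ∈ L v
    by_cases hv : v ∈ W
    · rw [if_pos hv]
      exact ha1 v
    · rw [if_neg hv]
      exact hsub v (hc1 v ((hR v).2 hv))
  · change (if u ∈ W then a u else c u) ≠ if v ∈ W then a v else c v
    by_cases hu : u ∈ W <;> by_cases hv : v ∈ W
    · exact absurd huv (hW u hu v hv)
    · rw [if_pos hu, if_neg hv]
      exact hnot u v hu hv huv.symm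
    · rw [if_neg hu, if_pos hv]
      exact (hnot v u hv hu huv).symm
    · rw [if_neg hu, if_neg hv]
      exact hc2 u ((hR u).2 hu) v ((hR v).2 hv) huv

end Pool.Agent.Helper2.OF4.CO
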